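import Pool.Agent.helper64.NQ.Spec

/-!
# Row nq:OMC
-/

set_option autoImplicit false

namespace Pool.Agent.NQ

open Pool.Agent.helper58.DC Pool.Agent.DI Pool.Agent.DR

section alt

variable {Q : Type} [Group Q]

theorem OMC_powl {V : Subgroup Q} {ω : Q → Q → ℂˣ} (h : IsAlt V ω) {x z : Q} (hx : x ∈ V)
    (hz : z ∈ V) (n : ℕ) : ω (x ^ n) z = ω x z ^ n := by
  have h1 : ω 1 z = 1 := by
    have h2 := h.mul_left 1 V.one_mem 1 V.one_mem z hz
    rw [mul_one] at h2
    exact mul_eq_left.1 h2.symm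
  induction n with
  | zero => rw [pow_zero, pow_zero, h1]
  | succ n ih => rw [pow_succ, h.mul_left _ (V.pow_mem hx n) _ hx _ hz, ih, pow_succ]

theorem OMC_powr {V : Subgroup Q} {ω : Q → Q → ℂˣ} (h : IsAlt V ω) {x z : Q} (hx : x ∈ V)
    (hz : z ∈ V) (n : ℕ) : ω x (z ^ n) = ω x z ^ n := by
  have h1 : ω x 1 = 1 := by
    have h2 := h.mul_right x hx 1 V.one_mem 1 V.one_mem
    rw [mul_one] at h2
    exact mul_eq_left.1 h2.symm
  induction n with
  | zero => rw [pow_zero, pow_zero, h1]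
  | succ n ih => rw [pow_succ, h.mul_right _ hx _ (V.pow_mem hz n) _ hz, ih, pow_succ]

/-- Two elements of a cyclic Sylow subgroup. -/
theorem OMC_cyc [Finite Q] (hc : ∀ x y : Q, x * y = y * x) {V : Subgroup Q} {ω : Q → Q → ℂˣ}
    (h : IsAlt V ω) (r a : ℕ) (hr : r.Prime) (hR : ∀ R : Sylow r Q, IsCyclic R) {y z : Q}
    (hy : y ∈ V) (hz : z ∈ V) (hy1 : y ^ r ^ a = 1) (hz1 : z ^ r ^ a = 1) : ω y z = 1 := by
  have : Fact r.Prime := ⟨hr⟩
  have hP : IsPGroup r (Subgroup.closure {y, z}) := by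
    rintro ⟨x, hx⟩
    refine ⟨a, ?_⟩
    apply Subtype.ext
    show x ^ r ^ a = 1
    induction hx using Subgroup.closure_induction with
    | mem x hx =>
      rcases hx with rfl | hx
      · exact hy1
      · rw [Set.mem_singleton_iff.1 hx]
        exact hz1
    | one => rw [one_pow]
    | mul u v _ _ hu hv =>
      rw [(show Commute u v from hc u v).mul_pow, hu, hv, mul_one]
    | inv u _ hu => rw [inv_pow, hu, inv_one]
  obtain ⟨R, hle⟩ := hP.exists_le_sylow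
  have : IsCyclic R := hR R
  have : IsCyclic (Subgroup.closure {y, z}) :=
    isCyclic_of_injective (Subgroup.inclusion hle) (Subgroup.inclusion_injective hle)
  obtain ⟨g, hg⟩ := IsCyclic.exists_monoid_generator (α := Subgroup.closure {y, z})
  have hgV : (g : Q) ∈ V := by
    have h1 : Subgroup.closure {y, z} ≤ V := by
      rw [Subgroup.closure_le]
      rintro x (rfl | hx)
      · exact hy
      · rw [Set.mem_singleton_iff.1 hx]
        exact hz
    exact h1 g.2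
  obtain ⟨i, hi⟩ := hg ⟨y, Subgroup.subset_closure (Or.inl rfl)⟩
  obtain ⟨j, hj⟩ := hg ⟨z, Subgroup.subset_closure (Or.inr rfl)⟩
  have hi' : (g : Q) ^ i = y := congrArg Subtype.val hi
  have hj' : (g : Q) ^ j = z := congrArg Subtype.val hj
  have h5 : ω ((g : Q) ^ i) ((g : Q) ^ j) = 1 := by
    rw [OMC_powl h hgV (V.pow_mem hgV j), OMC_powr h hgV hgV, h.self _ hgV, one_pow, one_pow]
  exact (congrArg₂ ω hi' hj').symm.trans h5

end alt

/-- The determinant argument. -/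
theorem OMC_det {Γ Q : Type} [Group Γ] [Finite Γ] [Group Q] (hc : ∀ x y : Q, x * y = y * x)
    (q : Γ →* Q) (S : Subgroup Γ) (ψ : Γ → ℂ) (α : Q → Q → ℂˣ) (hco : CocOn (S.map q) α)
    {V : Type} [AddCommGroup V] [Module ℂ V] [FiniteDimensional ℂ V]
    (T : Γ → Module.End ℂ V) (hT : AscT S q ψ α T) {s s' : Γ} (hs : s ∈ S) (hs' : s' ∈ S) :
    om α (q s) (q s') ^ (Module.finrank ℂ V * Nat.card (S ⊓ q.ker : Subgroup Γ)) = 1 := by
  have hq1 : (1 : Q) ∈ S.map q := Subgroup.one_mem _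
  have hmem : ∀ t ∈ S, q t ∈ S.map q := fun t ht => Subgroup.mem_map_of_mem q ht
  -- the commutator
  have hh : s * s' * s⁻¹ * s'⁻¹ ∈ S ⊓ q.ker := by
    refine Subgroup.mem_inf.2
      ⟨S.mul_mem (S.mul_mem (S.mul_mem hs hs') (S.inv_mem hs)) (S.inv_mem hs'), ?_⟩
    rw [MonoidHom.mem_ker, map_mul, map_mul, map_mul, map_inv, map_inv, hc (q s) (q s')]
    group
  have hK : ∀ h ∈ S ⊓ q.ker, q h = 1 := fun h hh => MonoidHom.mem_ker.1 hh.2
  -- invertibility
  have hinv : ∀ t ∈ S, LinearMap.det (T t) ≠ 0 := by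
    intro t ht h0
    have h1 := hT.mul t ht t⁻¹ (S.inv_mem ht)
    rw [mul_inv_cancel, hT.one] at h1
    have h2 := congrArg LinearMap.det h1
    rw [map_mul, h0, zero_mul, LinearMap.det_smul, map_one, mul_one] at h2
    exact pow_ne_zero _ (Units.ne_zero _) h2.symm
  -- multiplicative on K
  have hpow : ∀ h ∈ S ⊓ q.ker, ∀ n : ℕ, T (h ^ n) = T h ^ n := by
    intro h hh n
    induction n with
    | zero => rw [pow_zero, pow_zero, hT.one]
    | succ n ih =>
      have h1 := hT.mul (h ^ n) (S.pow_mem hh.1 n) h hh.1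
      rw [map_pow, hK h hh, one_pow, (hco.2 1 hq1).1, Units.val_one, one_smul] at h1
      rw [pow_succ, ← h1, ih, pow_succ]
  have hdK : ∀ h ∈ S ⊓ q.ker,
      LinearMap.det (T h) ^ Nat.card (S ⊓ q.ker : Subgroup Γ) = 1 := by
    intro h hh
    have h1 : h ^ Nat.card (S ⊓ q.ker : Subgroup Γ) = 1 := by
      have h2 := pow_card_eq_one' (G := (S ⊓ q.ker : Subgroup Γ)) (x := ⟨h, hh⟩)
      exact congrArg Subtype.val h2
    rw [← map_pow, ← hpow h hh, h1, hT.one, map_one]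
  set h := s * s' * s⁻¹ * s'⁻¹ with hdef
  have e0 : h * (s' * s) = s * s' := by rw [hdef]; group
  have e1 := hT.mul s hs s' hs'
  have e2 := hT.mul s' hs' s hs
  have e3 := hT.mul h hh.1 (s' * s) (S.mul_mem hs' hs)
  rw [hK h hh, (hco.2 _ (hmem _ (S.mul_mem hs' hs))).1, Units.val_one, one_smul, e0] at e3
  rw [← e3] at e1
  have d1 := congrArg LinearMap.det e1
  have d2 := congrArg LinearMap.det e2
  rw [map_mul, LinearMap.det_smul, map_mul] at d1
  rw [map_mul, LinearMap.det_smul] at d2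
  have hE : LinearMap.det (T (s' * s)) ≠ 0 := hinv _ (S.mul_mem hs' hs)
  have hB : ((α (q s') (q s) : ℂˣ) : ℂ) ≠ 0 := Units.ne_zero _
  have h4 : ((α (q s') (q s) : ℂˣ) : ℂ) ^ Module.finrank ℂ V =
      ((α (q s) (q s') : ℂˣ) : ℂ) ^ Module.finrank ℂ V * LinearMap.det (T h) := by
    apply mul_right_cancel₀ hE
    rw [← d2, mul_comm (LinearMap.det (T s')), d1]
    ring
  have h5 : ((om α (q s) (q s') : ℂˣ) : ℂ) ^ Module.finrank ℂ V * LinearMap.det (T h) = 1 := by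
    rw [om, Units.val_mul, Units.val_inv_eq_inv_val, mul_pow, inv_pow, mul_right_comm, ← h4]
    exact mul_inv_cancel₀ (pow_ne_zero _ hB)
  have h6 : ((om α (q s) (q s') : ℂˣ) : ℂ) ^
      (Module.finrank ℂ V * Nat.card (S ⊓ q.ker : Subgroup Γ)) = 1 := by
    have h7 := congrArg (fun c : ℂ => c ^ Nat.card (S ⊓ q.ker : Subgroup Γ)) h5
    simp only [mul_pow, one_pow] at h7
    rw [hdK h hh, mul_one, ← pow_mul] at h7
    exact h7
  apply Units.ext
  rw [Units.val_pow_eq_pow_val, Units.val_one]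
  exact h6

theorem OMC (hCN0 : CN0_stmt) (hOMA : OMA_stmt) (hB2 : Pool.Agent.DI.B2_stmt) : OMC_stmt := by
  intro Γ Q _ _ _ _ q S hc ψ hψ α hA hr y hy z hz
  have hco := hCN0 Γ Q q S ψ hψ α hA
  have hal := hOMA Q (S.map q) (fun x _ y _ => hc x y) α hco
  by_contra hne
  have hQ1 : om α y z ^ Nat.card Q = 1 := by
    rw [← OMC_powl hal hy hz, pow_card_eq_one']
    have h1 := OMC_powl hal hy hz 0
    rwa [pow_zero, pow_zero] at h1
  have ho : orderOf (om α y z) ≠ 1 := fun h => hne (orderOf_eq_one_iff.1 h)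
  obtain ⟨r, hrp, hro⟩ := Nat.exists_prime_and_dvd ho
  have hrQ : r ∣ Nat.card Q := hro.trans (orderOf_dvd_of_pow_eq_one hQ1)
  obtain ⟨a, m, hm, hQ⟩ := Nat.exists_eq_pow_mul_and_not_dvd (n := Nat.card Q)
    Nat.card_pos.ne' r hrp.ne_one
  have hy' : y ^ m ∈ S.map q := Subgroup.pow_mem _ hy m
  have hz' : z ^ m ∈ S.map q := Subgroup.pow_mem _ hz m
  have hy1 : (y ^ m) ^ r ^ a = 1 := by
    rw [← pow_mul, mul_comm, ← hQ, pow_card_eq_one']
  have hz1 : (z ^ m) ^ r ^ a = 1 := by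
    rw [← pow_mul, mul_comm, ← hQ, pow_card_eq_one']
  have hpw : om α (y ^ m) (z ^ m) = om α y z ^ (m * m) := by
    rw [OMC_powl hal hy hz', OMC_powr hal hy hz, ← pow_mul]
  have hne' : om α (y ^ m) (z ^ m) ≠ 1 := by
    intro h
    rw [hpw] at h
    have h1 : r ∣ m * m := hro.trans (orderOf_dvd_of_pow_eq_one h)
    rcases (Nat.Prime.dvd_mul hrp).1 h1 with h2 | h2
    · exact hm h2
    · exact hm h2
  rcases hr r hrp hrQ with hK | hR
  · obtain ⟨V, _, _, _, T, hT⟩ := hA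
    obtain ⟨s, hs, hsy⟩ := Subgroup.mem_map.1 hy'
    obtain ⟨s', hs', hsz⟩ := Subgroup.mem_map.1 hz'
    have h1 := OMC_det hc q S ψ α hco T hT hs hs'
    rw [hsy, hsz] at h1
    obtain ⟨n, hn0, hn, hnK⟩ := ((hB2 Γ (S ⊓ q.ker)).2 ψ hψ).1
    have hk : Module.finrank ℂ V = n := by
      have h2 := hT.tr 1 (Subgroup.one_mem _)
      rw [hT.one, hn, LinearMap.trace_one] at h2
      exact_mod_cast h2.symm
    rw [hk] at h1
    have hrn : ¬ r ∣ n * Nat.card (S ⊓ q.ker : Subgroup Γ) := by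
      intro h
      rcases (Nat.Prime.dvd_mul hrp).1 h with h2 | h2
      · exact hK (h2.trans hnK)
      · exact hK h2
    have h3 : om α (y ^ m) (z ^ m) ^ r ^ a = 1 := by
      rw [← OMC_powl hal hy' hz', hy1]
      have h1 := OMC_powl hal hy hz' 0
      rwa [pow_zero, pow_zero] at h1
    have h4 : orderOf (om α (y ^ m) (z ^ m)) ∣
        Nat.gcd (n * Nat.card (S ⊓ q.ker : Subgroup Γ)) (r ^ a) :=
      Nat.dvd_gcd (orderOf_dvd_of_pow_eq_one h1) (orderOf_dvd_of_pow_eq_one h3)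
    have h5 : Nat.gcd (n * Nat.card (S ⊓ q.ker : Subgroup Γ)) (r ^ a) = 1 :=
      ((Nat.Prime.coprime_iff_not_dvd hrp).2 hrn).symm.pow_right a
    rw [h5, Nat.dvd_one] at h4
    exact hne' (orderOf_eq_one_iff.1 h4)
  · exact hne' (OMC_cyc hc hal r a hrp hR hy' hz' hy1 hz1)

end Pool.Agent.NQ
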